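import Mathlib

set_option autoImplicit false

/-!
# O(p) × O(q)-invariant free boundary minimal hypersurfaces of the unit ball: definitions
-/

namespace Pool.Agent.Work.MP_408f4b_gt

open MeasureTheory Set

/-- Euclidean space `ℝ^n`. -/
abbrev E (n : ℕ) : Type := EuclideanSpace ℝ (Fin n)

/-- The ambient space `ℝ^p × ℝ^q = ℝ^(p+q)` with its Euclidean norm. -/
abbrev Amb (p q : ℕ) : Type := WithLp 2 (E p × E q)

/-- The unit sphere of `ℝ^n`. -/
abbrev Sph (n : ℕ) : Type := Metric.sphere (0 : E n) 1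

/-- The surface measure of the unit sphere `S^(n-1)` of `ℝ^n`. -/
noncomputable def sig (n : ℕ) : Measure (Sph n) := (volume : Measure (E n)).toSphere

/-- The profile curve `s ↦ (x s, y s)`, `0 ≤ s ≤ L`, of a compact connected embedded free boundary
minimal hypersurface of the unit ball of `ℝ^p × ℝ^q` invariant under `O(p) × O(q)`; the
hypersurface is the set of the points `(u, v)` with `‖u‖ = x s`, `‖v‖ = y s` for some `s`. -/
structure Profile (p q : ℕ) where
  /-- the length of the curve -/
  L : ℝ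
  /-- the first coordinate, the radius in `ℝ^p` -/
  x : ℝ → ℝ
  /-- the second coordinate, the radius in `ℝ^q` -/
  y : ℝ → ℝ
  L_pos : 0 < L
  x_C2 : ContDiff ℝ 2 x
  y_C2 : ContDiff ℝ 2 y
  /-- parametrisation by arclength -/
  arclength : ∀ s ∈ Icc 0 L, deriv x s ^ 2 + deriv y s ^ 2 = 1
  /-- the curve is simple: the hypersurface is embedded -/
  injOn : InjOn (fun s => (x s, y s)) (Icc 0 L)
  /-- away from its ends the curve is in the open quadrant and in the open unit disc -/
  interior : ∀ s ∈ Ioo 0 L, 0 < x s ∧ 0 < y s ∧ x s ^ 2 + y s ^ 2 < 1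
  /-- the mean curvature of the hypersurface vanishes -/
  minimal : ∀ s ∈ Ioo 0 L, deriv x s * deriv (deriv y) s - deriv y s * deriv (deriv x) s =
    ((q : ℝ) - 1) * deriv x s / y s - ((p : ℝ) - 1) * deriv y s / x s
  /-- the last point of the curve is on the unit circle, and the curve is orthogonal to it -/
  final : 0 < x L ∧ 0 < y L ∧ x L ^ 2 + y L ^ 2 = 1 ∧ deriv x L = x L ∧ deriv y L = y L
  /-- the first point of the curve is on the unit circle, and the curve is orthogonal to it
  (then the boundary of the hypersurface has two components), or it is on one of the axes, and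
  the curve is orthogonal to this axis (then there is one boundary component) -/
  initial : (0 < x 0 ∧ 0 < y 0 ∧ x 0 ^ 2 + y 0 ^ 2 = 1 ∧ deriv x 0 = -x 0 ∧ deriv y 0 = -y 0) ∨
    (x 0 = 0 ∧ 0 < y 0 ∧ deriv y 0 = 0) ∨ (0 < x 0 ∧ y 0 = 0 ∧ deriv x 0 = 0)

namespace Profile

variable {p q : ℕ} (P : Profile p q)

/-- The hypersurface generated by the profile curve. -/
def carrier : Set (Amb p q) := {X | ∃ s ∈ Icc 0 P.L, ‖X.fst‖ = P.x s ∧ ‖X.snd‖ = P.y s}

/-- The parametrisation of the hypersurface by `[0, L] × S^(p-1) × S^(q-1)`. -/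
noncomputable def pt (s : ℝ) (θ : Sph p) (ω : Sph q) : Amb p q :=
  WithLp.toLp 2 (P.x s • (θ : E p), P.y s • (ω : E q))

/-- The unit normal at the point `pt s θ ω`. -/
noncomputable def nu (s : ℝ) (θ : Sph p) (ω : Sph q) : Amb p q :=
  WithLp.toLp 2 (-deriv P.y s • (θ : E p), deriv P.x s • (ω : E q))

/-- The density of the area of the hypersurface with respect to `ds dθ dω`. -/
noncomputable def w (s : ℝ) : ℝ := P.x s ^ (p - 1) * P.y s ^ (q - 1)

/-- The square `‖∇f‖² - ⟨∇f, ν⟩²` of the norm of the tangential gradient of `f` at the point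
`pt s θ ω`. -/
noncomputable def gradSq (f : Amb p q → ℝ) (s : ℝ) (θ : Sph p) (ω : Sph q) : ℝ :=
  ‖gradient f (P.pt s θ ω)‖ ^ 2 - (inner ℝ (gradient f (P.pt s θ ω)) (P.nu s θ ω)) ^ 2

/-- The Dirichlet energy of `f` on the hypersurface. -/
noncomputable def energy (f : Amb p q → ℝ) : ℝ :=
  ∫ s in (0 : ℝ)..P.L, (∫ θ : Sph p, ∫ ω : Sph q, P.gradSq f s θ ω ∂sig q ∂sig p) * P.w s

/-- The integral of `f` over the boundary of the hypersurface (if the first point of the profile
curve is on an axis, then `w 0 = 0` and there is only one boundary component). -/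
noncomputable def bdry (f : Amb p q → ℝ) : ℝ :=
  (∫ θ : Sph p, ∫ ω : Sph q, f (P.pt P.L θ ω) ∂sig q ∂sig p) * P.w P.L +
    (∫ θ : Sph p, ∫ ω : Sph q, f (P.pt 0 θ ω) ∂sig q ∂sig p) * P.w 0

/-- The set of the Rayleigh quotients of the Steklov problem: its infimum is the first nonzero
Steklov eigenvalue. -/
def rayleigh : Set ℝ :=
  {R | ∃ f : Amb p q → ℝ, ContDiff ℝ 1 f ∧ P.bdry f = 0 ∧ P.bdry (fun X => f X ^ 2) ≠ 0 ∧
    R = P.energy f / P.bdry (fun X => f X ^ 2)}

end Profile

end Pool.Agent.Work.MP_408f4b_gt
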