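import Pool.Agent.Work.MP_408f4b_gt.Defs

set_option autoImplicit false

/-!
# Statements of the items
-/

namespace Pool.Agent.Work.MP_408f4b_gt

open MeasureTheory Set Filter Topology

/-! ## Part 1: the ODE of the two arms -/

/-- The hypotheses on the force `k`, its potential `b` and the rest point `φ₀`. -/
structure Pot (k b : ℝ → ℝ) (φ₀ : ℝ) : Prop where
  mem : φ₀ ∈ Ioo 0 (Real.pi / 2)
  anti : StrictAntiOn k (Ioo 0 (Real.pi / 2))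
  zero : k φ₀ = 0
  der : ∀ u ∈ Ioo 0 (Real.pi / 2), HasDerivAt b (2 * k u * b u) u
  pos : ∀ u ∈ Ioo 0 (Real.pi / 2), 0 < b u
  one : b φ₀ = 1

/-- An arm: a solution of `φ' = tan ψ`, `ψ' = k φ - d tan ψ` on `(0, T]`, continuous on
`[0, T]`. -/
structure Arm (k : ℝ → ℝ) (d T : ℝ) (φ ψ : ℝ → ℝ) : Prop where
  cφ : ContinuousOn φ (Icc 0 T)
  cψ : ContinuousOn ψ (Icc 0 T)
  rφ : ∀ t ∈ Icc 0 T, φ t ∈ Ioo 0 (Real.pi / 2)
  rψ : ∀ t ∈ Ioc 0 T, ψ t ∈ Ioo (-(Real.pi / 2)) (Real.pi / 2)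
  dφ : ∀ t ∈ Ioc 0 T, HasDerivAt φ (Real.tan (ψ t)) t
  dψ : ∀ t ∈ Ioc 0 T, HasDerivAt ψ (k (φ t) - d * Real.tan (ψ t)) t

/-- The potential is at most one, with equality only at the rest point; `b` increases before
`φ₀` and decreases after it. -/
def claimPot : Prop := ∀ (k b : ℝ → ℝ) (φ₀ : ℝ), Pot k b φ₀ →
  (∀ u ∈ Ioo 0 (Real.pi / 2), b u ≤ 1 ∧ (b u = 1 → u = φ₀)) ∧
  (∀ u ∈ Ioo 0 (Real.pi / 2), u < φ₀ → 0 < k u) ∧ (∀ u ∈ Ioo 0 (Real.pi / 2), φ₀ < u → k u < 0) ∧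
  (∀ u v : ℝ, 0 < u → u ≤ v → v ≤ φ₀ → b u ≤ b v)

/-- The force and the potential of the problem. -/
noncomputable def kk (p q : ℕ) (u : ℝ) : ℝ :=
  ((q : ℝ) - 1) * (Real.cos u / Real.sin u) - ((p : ℝ) - 1) * (Real.sin u / Real.cos u)

/-- The angle of the minimal cone. -/
noncomputable def ang (p q : ℕ) : ℝ := Real.arctan (Real.sqrt (((q : ℝ) - 1) / ((p : ℝ) - 1)))

/-- The potential, normalised to be one at the angle of the cone. -/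
noncomputable def bb (p q : ℕ) (u : ℝ) : ℝ :=
  (Real.cos u ^ (p - 1) * Real.sin u ^ (q - 1)) ^ 2 /
    (Real.cos (ang p q) ^ (p - 1) * Real.sin (ang p q) ^ (q - 1)) ^ 2

def claimKK : Prop := ∀ p q : ℕ, 2 ≤ p → 2 ≤ q → Pot (kk p q) (bb p q) (ang p q) ∧
  ∀ x y : ℝ, 0 < x → 0 < y → (Real.arctan (y / x) < ang p q ↔
    0 < ((q : ℝ) - 1) * x ^ 2 - ((p : ℝ) - 1) * y ^ 2) ∧ (Real.arctan (y / x) = ang p q ↔
    ((q : ℝ) - 1) * x ^ 2 - ((p : ℝ) - 1) * y ^ 2 = 0)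

/-- The quantity `1 - b(φ) cos² ψ` times `e^(2dt)`. -/
noncomputable def SS (b : ℝ → ℝ) (d : ℝ) (φ ψ : ℝ → ℝ) (t : ℝ) : ℝ :=
  Real.exp (2 * d * t) * (1 - b (φ t) * Real.cos (ψ t) ^ 2)

/-- The exact formula for the derivative of `SS` and its consequences. -/
def claimSS : Prop := ∀ (k b : ℝ → ℝ) (φ₀ d T : ℝ) (φ ψ : ℝ → ℝ), Pot k b φ₀ → 0 < d → 0 < T →
  Arm k d T φ ψ →
  (∀ t ∈ Ioc 0 T, HasDerivAt (SS b d φ ψ) (2 * d * Real.exp (2 * d * t) * (1 - b (φ t))) t) ∧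
  ContinuousOn (SS b d φ ψ) (Icc 0 T) ∧ MonotoneOn (SS b d φ ψ) (Icc 0 T) ∧
  (Real.cos (ψ 0) = 0 → ∀ t ∈ Icc 0 T, 1 ≤ SS b d φ ψ t)

/-- The structure of an embedded chord: the angle of the upper arm is larger than the angle of
the lower arm until the end. -/
def claimStr : Prop := ∀ (k b : ℝ → ℝ) (φ₀ d T : ℝ) (A ψA B ψB : ℝ → ℝ), Pot k b φ₀ → 0 < d →
  0 < T → Arm k d T A ψA → Arm k d T B ψB → A 0 = B 0 → ψA 0 = Real.pi / 2 →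
  ψB 0 = -(Real.pi / 2) → (∀ t ∈ Ioc 0 T, A t ≠ B t) → ψA T = 0 → ψB T = 0 →
  (∀ t ∈ Ioc 0 T, B t < A t) ∧ ∀ t ∈ Ioo 0 T, ψB t < ψA t

/-- If the nearest point is below the cone (or on it), then the lower arm descends until the
end. -/
def claimLow : Prop := ∀ (k b : ℝ → ℝ) (φ₀ d T : ℝ) (A ψA B ψB : ℝ → ℝ), Pot k b φ₀ → 0 < d →
  0 < T → Arm k d T A ψA → Arm k d T B ψB → A 0 = B 0 → A 0 ≤ φ₀ → ψA 0 = Real.pi / 2 →
  ψB 0 = -(Real.pi / 2) → (∀ t ∈ Ioc 0 T, B t < A t) → (∀ t ∈ Ioo 0 T, ψB t < ψA t) →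
  ψA T = 0 → ψB T = 0 →
  (∀ t ∈ Ioo 0 T, ψB t < 0) ∧ (∀ t ∈ Ioc 0 T, B t < φ₀) ∧
  ∀ t ∈ Ioc 0 T, ψA t ≤ 0 → φ₀ < A t

/-- The conclusion on the two arms: they meet the cone at most once. -/
def claimArms : Prop := ∀ (k b : ℝ → ℝ) (φ₀ d T : ℝ) (A ψA B ψB : ℝ → ℝ), Pot k b φ₀ → 0 < d →
  0 < T → Arm k d T A ψA → Arm k d T B ψB → A 0 = B 0 → A 0 ≤ φ₀ → ψA 0 = Real.pi / 2 →
  ψB 0 = -(Real.pi / 2) → (∀ t ∈ Ioc 0 T, A t ≠ B t) → ψA T = 0 → ψB T = 0 →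
  (∀ t ∈ Ioc 0 T, B t < φ₀) ∧ φ₀ < A T ∧ (A 0 = φ₀ → ∀ t ∈ Ioc 0 T, φ₀ < A t) ∧
  ∀ t ∈ Ioc 0 T, ∀ t' ∈ Ioc 0 T, A t = φ₀ → A t' = φ₀ → t = t'

/-! ## Part 2: the profile curve and its arms -/

/-- A piece of a profile curve in the open quadrant. -/
def Curve (p q : ℕ) (a b : ℝ) (x y : ℝ → ℝ) : Prop := ContDiff ℝ 2 x ∧ ContDiff ℝ 2 y ∧
  ∀ s ∈ Icc a b, 0 < x s ∧ 0 < y s ∧ deriv x s ^ 2 + deriv y s ^ 2 = 1 ∧
    deriv x s * deriv (deriv y) s - deriv y s * deriv (deriv x) s =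
      ((q : ℝ) - 1) * deriv x s / y s - ((p : ℝ) - 1) * deriv y s / x s

/-- the weight -/
noncomputable def wt (p q : ℕ) (x y : ℝ → ℝ) (s : ℝ) : ℝ := x s ^ (p - 1) * y s ^ (q - 1)

/-- the geodesic curvature of the profile -/
noncomputable def kap (p q : ℕ) (x y : ℝ → ℝ) (s : ℝ) : ℝ :=
  ((q : ℝ) - 1) * deriv x s / y s - ((p : ℝ) - 1) * deriv y s / x s

/-- The equations of the profile in the form in which they are used. -/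
def claimEqn : Prop := ∀ (p q : ℕ) (a b : ℝ) (x y : ℝ → ℝ), 2 ≤ p → 2 ≤ q → a < b →
  Curve p q a b x y → ∀ s ∈ Icc a b,
  HasDerivAt (deriv x) (-(kap p q x y s) * deriv y s) s ∧
  HasDerivAt (deriv y) (kap p q x y s * deriv x s) s ∧
  HasDerivAt (fun t => wt p q x y t * deriv x t) (((p : ℝ) - 1) * wt p q x y s / x s) s ∧
  HasDerivAt (fun t => wt p q x y t * deriv y t) (((q : ℝ) - 1) * wt p q x y s / y s) s ∧
  HasDerivAt (fun t => wt p q x y t * (x t * deriv x t + y t * deriv y t))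
    (((p : ℝ) + q - 1) * wt p q x y s) s ∧
  HasDerivAt (fun t => x t * deriv y t - y t * deriv x t)
    (kap p q x y s * (x s * deriv x s + y s * deriv y s)) s

/-- The distance to the origin. -/
noncomputable def rad (x y : ℝ → ℝ) (s : ℝ) : ℝ := Real.sqrt (x s ^ 2 + y s ^ 2)

/-- Half a profile curve, from the nearest point to the origin on, gives an arm. -/
def claimArm : Prop := ∀ (p q : ℕ) (ℓ ε : ℝ) (x y : ℝ → ℝ), 2 ≤ p → 2 ≤ q → 0 < ℓ →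
  (ε = 1 ∨ ε = -1) → Curve p q 0 ℓ x y → x 0 * deriv x 0 + y 0 * deriv y 0 = 0 →
  (∀ s ∈ Ioc 0 ℓ, 0 < x s * deriv x s + y s * deriv y s) →
  0 < ε * (x 0 * deriv y 0 - y 0 * deriv x 0) →
  ∃ φ ψ : ℝ → ℝ, 0 < Real.log (rad x y ℓ / rad x y 0) ∧
    Arm (kk p q) ((p : ℝ) + q - 1) (Real.log (rad x y ℓ / rad x y 0)) φ ψ ∧
    ψ 0 = ε * (Real.pi / 2) ∧ ∀ s ∈ Icc 0 ℓ,
      Real.log (rad x y s / rad x y 0) ∈ Icc 0 (Real.log (rad x y ℓ / rad x y 0)) ∧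
      φ (Real.log (rad x y s / rad x y 0)) = Real.arctan (y s / x s) ∧
      rad x y s * Real.sin (ψ (Real.log (rad x y s / rad x y 0))) =
        x s * deriv y s - y s * deriv x s

/-- A chord: the data of a profile with two boundary components. -/
structure Chord (p q : ℕ) (L : ℝ) (x y : ℝ → ℝ) : Prop where
  L_pos : 0 < L
  curve : Curve p q 0 L x y
  injOn : InjOn (fun s => (x s, y s)) (Icc 0 L)
  final : x L ^ 2 + y L ^ 2 = 1 ∧ deriv x L = x L ∧ deriv y L = y L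
  initial : x 0 ^ 2 + y 0 ^ 2 = 1 ∧ deriv x 0 = -x 0 ∧ deriv y 0 = -y 0

/-- The nearest point to the origin is unique. -/
def claimNear : Prop := ∀ (p q : ℕ) (L : ℝ) (x y : ℝ → ℝ), 2 ≤ p → 2 ≤ q → Chord p q L x y →
  ∃ s₀ ∈ Ioo 0 L, x s₀ * deriv x s₀ + y s₀ * deriv y s₀ = 0 ∧
    (∀ s ∈ Ico 0 s₀, x s * deriv x s + y s * deriv y s < 0) ∧
    (∀ s ∈ Ioc s₀ L, 0 < x s * deriv x s + y s * deriv y s) ∧
    (x s₀ * deriv y s₀ - y s₀ * deriv x s₀) ^ 2 = x s₀ ^ 2 + y s₀ ^ 2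

/-- the function whose zero set is the minimal cone -/
noncomputable def DD (p q : ℕ) (x y : ℝ → ℝ) (s : ℝ) : ℝ :=
  ((q : ℝ) - 1) * x s ^ 2 - ((p : ℝ) - 1) * y s ^ 2

/-- The symmetries: reversal of the curve, and exchange of the coordinates. -/
def claimSym : Prop :=
  (∀ (p q : ℕ) (L : ℝ) (x y : ℝ → ℝ), Chord p q L x y →
    Chord p q L (fun s => x (L - s)) (fun s => y (L - s)) ∧ Chord q p L y x) ∧
  (∀ (p q : ℕ) (a b : ℝ) (x y : ℝ → ℝ), Curve p q a b x y → Curve q p a b y x) ∧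
  ∀ (p q : ℕ) (x y : ℝ → ℝ) (s : ℝ), wt q p y x s = wt p q x y s

/-- A chord meets the cone at most once, and not at its ends; first the case in which the nearest
point satisfies `D ≥ 0` and the curve turns towards larger angles there. -/
def claimCross0 : Prop := ∀ (p q : ℕ) (L : ℝ) (x y : ℝ → ℝ) (s₀ : ℝ), 2 ≤ p → 2 ≤ q →
  Chord p q L x y → s₀ ∈ Ioo 0 L → x s₀ * deriv x s₀ + y s₀ * deriv y s₀ = 0 →
  (∀ s ∈ Ico 0 s₀, x s * deriv x s + y s * deriv y s < 0) →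
  (∀ s ∈ Ioc s₀ L, 0 < x s * deriv x s + y s * deriv y s) →
  0 < x s₀ * deriv y s₀ - y s₀ * deriv x s₀ → 0 ≤ DD p q x y s₀ →
  DD p q x y 0 ≠ 0 ∧ DD p q x y L ≠ 0 ∧
  ∀ s ∈ Icc 0 L, ∀ s' ∈ Icc 0 L, DD p q x y s = 0 → DD p q x y s' = 0 → s = s'

def claimCross : Prop := ∀ (p q : ℕ) (L : ℝ) (x y : ℝ → ℝ), 2 ≤ p → 2 ≤ q → Chord p q L x y →
  DD p q x y 0 ≠ 0 ∧ DD p q x y L ≠ 0 ∧
  ∀ s ∈ Icc 0 L, ∀ s' ∈ Icc 0 L, DD p q x y s = 0 → DD p q x y s' = 0 → s = s'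

/-! ## Part 3: the supersolution `√D` -/

/-- On a piece on which `D > 0` and which ends orthogonally on the unit circle. -/
def claimSuper : Prop := ∀ (p q : ℕ) (a b : ℝ) (x y : ℝ → ℝ), 2 ≤ p → 2 ≤ q → a < b →
  Curve p q a b x y → (∀ s ∈ Ioc a b, 0 < DD p q x y s) → deriv x b = x b → deriv y b = y b →
  (∀ s ∈ Ioc a b, wt p q x y b * Real.sqrt (DD p q x y b) ≤
    wt p q x y s * (deriv (DD p q x y) s / (2 * Real.sqrt (DD p q x y s)))) ∧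
  ∫ s in a..b, (wt p q x y s)⁻¹ ≤ (wt p q x y b)⁻¹

/-- The inequality for a chord: the sector of the invariant functions. -/
def claimInv : Prop := ∀ (p q : ℕ) (L : ℝ) (x y : ℝ → ℝ), 2 ≤ p → 2 ≤ q → Chord p q L x y →
  (∃! s, s ∈ Icc 0 L ∧ DD p q x y s = 0) ∧
  ∫ s in (0 : ℝ)..L, (wt p q x y s)⁻¹ ≤ (wt p q x y 0)⁻¹ + (wt p q x y L)⁻¹

/-- Invariant functions. -/
def claimInvF : Prop := ∀ (p q : ℕ) (L : ℝ) (x y K K' : ℝ → ℝ), 2 ≤ p → 2 ≤ q →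
  Chord p q L x y → (∀ s ∈ Icc 0 L, HasDerivAt K (K' s) s) → ContinuousOn K' (Icc 0 L) →
  K 0 * wt p q x y 0 + K L * wt p q x y L = 0 →
  K L ^ 2 * wt p q x y L + K 0 ^ 2 * wt p q x y 0 ≤
    ∫ s in (0 : ℝ)..L, K' s ^ 2 * wt p q x y s

/-! ## Part 4: the sectors of the coordinate functions -/

/-- The inequality for the sector of `x`. -/
def claimSec : Prop := ∀ (p q : ℕ) (a b : ℝ) (x y u u' : ℝ → ℝ), 2 ≤ p → 2 ≤ q → a < b →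
  Curve p q a b x y → (∀ s ∈ Icc a b, HasDerivAt u (u' s) s) → ContinuousOn u' (Icc a b) →
  u b ^ 2 * (deriv x b / x b) * wt p q x y b - u a ^ 2 * (deriv x a / x a) * wt p q x y a ≤
    ∫ s in a..b, (u' s ^ 2 + ((p : ℝ) - 1) / x s ^ 2 * u s ^ 2) * wt p q x y s

/-! ## Part 5: the Poincaré inequality on the sphere -/

open ProbabilityTheory in
/-- The Gaussian Poincaré inequality in dimension one. -/
def claimG1 : Prop := ∀ (f : ℝ → ℝ) (C : ℝ), ContDiff ℝ 1 f → (∀ t, |deriv f t| ≤ C) →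
  ∫ t, f t ^ 2 ∂(gaussianReal 0 1) - (∫ t, f t ∂(gaussianReal 0 1)) ^ 2 ≤
    ∫ t, deriv f t ^ 2 ∂(gaussianReal 0 1)

/-- Resampling one coordinate preserves a product measure. -/
def claimUpd : Prop := ∀ (n : ℕ) (i : Fin n) (μ : Measure ℝ), IsProbabilityMeasure μ →
  MeasurePreserving (fun z : (Fin n → ℝ) × ℝ => Function.update z.1 i z.2)
    ((Measure.pi fun _ : Fin n => μ).prod μ) (Measure.pi fun _ : Fin n => μ)

/-- The Efron-Stein inequality for the variance of a function of independent variables. -/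
def claimES : Prop := ∀ (n : ℕ) (μ : Measure ℝ), IsProbabilityMeasure μ →
  ∀ F : (Fin n → ℝ) → ℝ, Measurable F → Integrable (fun x => F x ^ 2) (Measure.pi fun _ => μ) →
  ∫ x, F x ^ 2 ∂(Measure.pi fun _ : Fin n => μ) -
      (∫ x, F x ∂(Measure.pi fun _ : Fin n => μ)) ^ 2 ≤
    ∑ i, ∫ x, (∫ t, F (Function.update x i t) ^ 2 ∂μ -
      (∫ t, F (Function.update x i t) ∂μ) ^ 2) ∂(Measure.pi fun _ : Fin n => μ)

open ProbabilityTheory in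
/-- The Gaussian measure in polar coordinates. -/
def claimPolar : Prop := ∀ n : ℕ, 1 ≤ n → ∃ c c₁ : ℝ, 0 < c ∧ ∀ h : E n → ℝ,
  ContinuousOn h {x | x ≠ 0} →
  ∫ x, h (‖x‖⁻¹ • x) ∂(stdGaussian (E n)) = c * ∫ θ : Sph n, h θ ∂sig n ∧
  ∫ x, ‖x‖ * h (‖x‖⁻¹ • x) ∂(stdGaussian (E n)) = c₁ * ∫ θ : Sph n, h θ ∂sig n ∧
  ∫ x, ‖x‖ ^ 2 * h (‖x‖⁻¹ • x) ∂(stdGaussian (E n)) = n * (c * ∫ θ : Sph n, h θ ∂sig n) ∧
  Integrable (fun x => h (‖x‖⁻¹ • x)) (stdGaussian (E n)) ∧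
  Integrable (fun x => ‖x‖ * h (‖x‖⁻¹ • x)) (stdGaussian (E n)) ∧
  Integrable (fun x => ‖x‖ ^ 2 * h (‖x‖⁻¹ • x)) (stdGaussian (E n))

open ProbabilityTheory in
/-- The Gaussian Poincaré inequality for the functions which are homogeneous of degree one and
`C^1` away from the origin. -/
def claimGP : Prop := ∀ (n : ℕ) (F : E n → ℝ), 2 ≤ n → ContDiffOn ℝ 1 F {x | x ≠ 0} →
  (∀ (r : ℝ) (x : E n), 0 ≤ r → F (r • x) = r * F x) →
  ∫ x, F x ^ 2 ∂(stdGaussian (E n)) - (∫ x, F x ∂(stdGaussian (E n))) ^ 2 ≤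
    ∫ x, ‖gradient F x‖ ^ 2 ∂(stdGaussian (E n))

/-- `∫ h² - (∫ h)² / |S|` for a function on the unit sphere. -/
noncomputable def VV (n : ℕ) (h : Sph n → ℝ) : ℝ :=
  ∫ θ, h θ ^ 2 ∂sig n - (∫ θ, h θ ∂sig n) ^ 2 / (sig n).real univ

/-- The sharp Poincaré inequality on the sphere. -/
def claimPoin : Prop := ∀ (n : ℕ) (g : E n → ℝ), 2 ≤ n → ContDiff ℝ 1 g →
  ((n : ℝ) - 1) * VV n (fun θ => g θ) ≤
    ∫ θ : Sph n, (‖gradient g (θ : E n)‖ ^ 2 - (inner ℝ (gradient g (θ : E n)) (θ : E n)) ^ 2) ∂sig n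

/-! ## Part 6: assembly -/

/-- The parametrisation, for a general pair of functions. -/
noncomputable def ptc {p q : ℕ} (x y : ℝ → ℝ) (s : ℝ) (θ : Sph p) (ω : Sph q) : Amb p q :=
  WithLp.toLp 2 (x s • (θ : E p), y s • (ω : E q))

/-- The derivative of `f` in the direction of the profile curve. -/
noncomputable def gT {p q : ℕ} (f : Amb p q → ℝ) (x y : ℝ → ℝ) (s : ℝ) (θ : Sph p) (ω : Sph q) :
    ℝ :=
  inner ℝ (gradient f (ptc x y s θ ω))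
    (WithLp.toLp 2 (deriv x s • (θ : E p), deriv y s • (ω : E q)))

/-- The square of the gradient along the first sphere. -/
noncomputable def gA {p q : ℕ} (f : Amb p q → ℝ) (x y : ℝ → ℝ) (s : ℝ) (θ : Sph p) (ω : Sph q) :
    ℝ :=
  ‖(gradient f (ptc x y s θ ω)).fst‖ ^ 2 - (inner ℝ (gradient f (ptc x y s θ ω)).fst (θ : E p)) ^ 2

/-- The square of the gradient along the second sphere. -/
noncomputable def gB {p q : ℕ} (f : Amb p q → ℝ) (x y : ℝ → ℝ) (s : ℝ) (θ : Sph p) (ω : Sph q) :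
    ℝ :=
  ‖(gradient f (ptc x y s θ ω)).snd‖ ^ 2 - (inner ℝ (gradient f (ptc x y s θ ω)).snd (ω : E q)) ^ 2

/-- The square of the tangential gradient. -/
noncomputable def gS {p q : ℕ} (f : Amb p q → ℝ) (x y : ℝ → ℝ) (s : ℝ) (θ : Sph p) (ω : Sph q) :
    ℝ :=
  ‖gradient f (ptc x y s θ ω)‖ ^ 2 - (inner ℝ (gradient f (ptc x y s θ ω))
    (WithLp.toLp 2 (-deriv y s • (θ : E p), deriv x s • (ω : E q)))) ^ 2

/-- Pointwise facts. -/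
def claimPt : Prop := ∀ (p q : ℕ) (x y : ℝ → ℝ) (f : Amb p q → ℝ), ContDiff ℝ 2 x →
  ContDiff ℝ 2 y → ContDiff ℝ 1 f →
  (∀ (s : ℝ) (θ : Sph p) (ω : Sph q), deriv x s ^ 2 + deriv y s ^ 2 = 1 →
    gS f x y s θ ω = gT f x y s θ ω ^ 2 + gA f x y s θ ω + gB f x y s θ ω) ∧
  (∀ (s : ℝ) (θ : Sph p) (ω : Sph q),
    HasDerivAt (fun t => f (ptc x y t θ ω)) (gT f x y s θ ω) s ∧
    0 ≤ gA f x y s θ ω ∧ 0 ≤ gB f x y s θ ω) ∧
  Continuous (fun z : ℝ × Sph p × Sph q => f (ptc x y z.1 z.2.1 z.2.2)) ∧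
  Continuous (fun z : ℝ × Sph p × Sph q => gT f x y z.1 z.2.1 z.2.2) ∧
  Continuous (fun z : ℝ × Sph p × Sph q => gA f x y z.1 z.2.1 z.2.2) ∧
  Continuous (fun z : ℝ × Sph p × Sph q => gB f x y z.1 z.2.1 z.2.2)

/-- The Poincaré inequality on the spheres of the hypersurface. -/
def claimSph : Prop := ∀ (p q : ℕ) (x y : ℝ → ℝ) (f : Amb p q → ℝ), 2 ≤ p → 2 ≤ q →
  ContDiff ℝ 2 x → ContDiff ℝ 2 y → ContDiff ℝ 1 f → ∀ s : ℝ,
  (∀ ω : Sph q, ((p : ℝ) - 1) * VV p (fun θ => f (ptc x y s θ ω)) ≤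
    x s ^ 2 * ∫ θ : Sph p, gA f x y s θ ω ∂sig p) ∧
  (∀ θ : Sph p, ((q : ℝ) - 1) * VV q (fun ω => f (ptc x y s θ ω)) ≤
    y s ^ 2 * ∫ ω : Sph q, gB f x y s θ ω ∂sig q)

/-- The variance as a double integral, its behaviour under averaging, and additivity. -/
def claimVar : Prop :=
  (∀ (n : ℕ) (h : Sph n → ℝ), 1 ≤ n → Continuous h →
    VV n h = (2 * (sig n).real univ)⁻¹ * ∫ θ, ∫ θ', (h θ - h θ') ^ 2 ∂sig n ∂sig n) ∧
  ∀ (m n : ℕ) (h : Sph m → Sph n → ℝ), 1 ≤ m → 1 ≤ n → Continuous (fun z : Sph m × Sph n => h z.1 z.2) →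
    VV n (fun ω => ∫ θ, h θ ω ∂sig m) ≤ (sig m).real univ * ∫ θ, VV n (h θ) ∂sig m

/-- The main inequality on a piece of the curve in the open quadrant. -/
def claimMain : Prop := ∀ (p q : ℕ) (a b : ℝ) (x y : ℝ → ℝ) (f : Amb p q → ℝ), 2 ≤ p → 2 ≤ q →
  a < b → Curve p q a b x y → deriv x b = x b → deriv y b = y b → ContDiff ℝ 1 f →
  wt p q x y b * (∫ θ : Sph p, ∫ ω : Sph q, f (ptc x y b θ ω) ^ 2 ∂sig q ∂sig p)
    - wt p q x y a * (deriv x a / x a * (∫ ω : Sph q, VV p (fun θ => f (ptc x y a θ ω)) ∂sig q)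
      + deriv y a / y a * (((sig p).real univ)⁻¹ *
        VV q (fun ω => ∫ θ : Sph p, f (ptc x y a θ ω) ∂sig p)))
    + ((sig p).real univ * (sig q).real univ)⁻¹ *
      ((∫ s in a..b, (∫ θ : Sph p, ∫ ω : Sph q, gT f x y s θ ω ∂sig q ∂sig p) ^ 2 * wt p q x y s)
        - wt p q x y b * (∫ θ : Sph p, ∫ ω : Sph q, f (ptc x y b θ ω) ∂sig q ∂sig p) ^ 2) ≤
  ∫ s in a..b, (∫ θ : Sph p, ∫ ω : Sph q, gS f x y s θ ω ∂sig q ∂sig p) * wt p q x y s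

/-- The pieces of a profile. -/
def claimPC : Prop := ∀ (p q : ℕ) (P : Profile p q),
  (∀ a : ℝ, 0 ≤ a → a < P.L → 0 < P.x a → 0 < P.y a → Curve p q a P.L P.x P.y) ∧
  (0 < P.x 0 → 0 < P.y 0 → Chord p q P.L P.x P.y) ∧
  (P.x 0 = 0 ∨ P.y 0 = 0 → 2 ≤ p → 2 ≤ q → P.w 0 = 0) ∧
  (∀ s, P.w s = wt p q P.x P.y s) ∧
  ∀ (f : Amb p q → ℝ) (s : ℝ) (θ : Sph p) (ω : Sph q), P.pt s θ ω = ptc P.x P.y s θ ω ∧
    P.gradSq f s θ ω = gS f P.x P.y s θ ω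

/-- Profiles with two boundary components. -/
def claimTwo : Prop := ∀ (p q : ℕ) (P : Profile p q), 2 ≤ p → 2 ≤ q → 0 < P.x 0 → 0 < P.y 0 →
  ∀ f : Amb p q → ℝ, ContDiff ℝ 1 f → P.bdry f = 0 → P.bdry (fun X => f X ^ 2) ≤ P.energy f

/-- Profiles with one boundary component. -/
def claimOne : Prop := ∀ (p q : ℕ) (P : Profile p q), 2 ≤ p → 2 ≤ q → (P.x 0 = 0 ∨ P.y 0 = 0) →
  ∀ f : Amb p q → ℝ, ContDiff ℝ 1 f → P.bdry f = 0 → P.bdry (fun X => f X ^ 2) ≤ P.energy f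

/-- Moments of the coordinates on the sphere. -/
def claimMom : Prop := ∀ (n : ℕ) (i : Fin n),
  ∫ θ : Sph n, (θ : E n) i ∂sig n = 0 ∧
  ∫ θ : Sph n, (θ : E n) i ^ 2 ∂sig n = (sig n).real univ / n

/-- The coordinate functions are Steklov eigenfunctions with eigenvalue one. -/
def claimCoord : Prop := ∀ (p q : ℕ) (P : Profile p q) (i : Fin p), 2 ≤ p → 2 ≤ q →
  ContDiff ℝ 1 (fun X : Amb p q => X.fst i) ∧ P.bdry (fun X => X.fst i) = 0 ∧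
  0 < P.bdry (fun X => X.fst i ^ 2) ∧
  P.energy (fun X => X.fst i) = P.bdry (fun X => X.fst i ^ 2)

/-- The theorem. -/
def claimThm : Prop := ∀ p q : ℕ, 2 ≤ p → 2 ≤ q → ∀ P : Profile p q, IsLeast P.rayleigh 1 ∧
  (0 < P.x 0 → 0 < P.y 0 →
    ∃! s, s ∈ Icc 0 P.L ∧ ((q : ℝ) - 1) * P.x s ^ 2 = ((p : ℝ) - 1) * P.y s ^ 2)

end Pool.Agent.Work.MP_408f4b_gt
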